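import Mathlib

/-!
# K2P: the pairing (step (5) of the proof for `k = 2`), definitions (helper97)
-/

set_option autoImplicit false

open scoped FourierTransform SchwartzMap

namespace Pool.Agent.K2P

open Complex MeasureTheory

/-- the profile of the Gaussian `exp(π i w |x|²)` -/
noncomputable def gs (w : ℂ) (t : ℝ) : ℂ := cexp (Real.pi * I * w * (t : ℂ) ^ 2)

/-- its derivative -/
noncomputable def gs' (w : ℂ) (t : ℝ) : ℂ := 2 * Real.pi * I * w * t * gs w t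

/-- the nodes -/
noncomputable def nd (n : ℕ) : ℝ := Real.sqrt (2 * n)

/-- the automorphy factor of the Fourier transform -/
noncomputable def jk (d : ℕ) (z : ℂ) : ℂ := (I / z) ^ ((d : ℂ) / 2)

/-- `e_r (1 - q)` -/
noncomputable def ee (r : ℝ) (z : ℂ) : ℂ :=
  cexp (Real.pi * I * (r : ℂ) ^ 2 * z) * (1 - cexp (2 * Real.pi * I * z))

/-- the terms of the functional, for a function `G` with derivative `G'` -/
noncomputable def LT (a b : ℕ → ℂ) (G G' : ℝ → ℂ) (n : ℕ) : ℂ :=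
  a n * G (nd n) + b n * (G' (nd n) / (2 * Real.pi * I * nd n))

/-- the functional -/
noncomputable def LL (a b : ℕ → ℂ) (r : ℝ) (G G' : ℝ → ℂ) : ℂ :=
  (∑' n, LT a b G G' n) - G r + G (Real.sqrt (r ^ 2 + 2))

/-- polynomially bounded sequences with `b 0 = 0` -/
structure PB (a b : ℕ → ℂ) (C : ℝ) (A : ℕ) : Prop where
  b0 : b 0 = 0
  ha : ∀ n, ‖a n‖ ≤ C * ((n : ℝ) + 1) ^ A
  hb : ∀ n, ‖b n‖ ≤ C * ((n : ℝ) + 1) ^ A

/-- the data: the form `F`, its expansion and the functional equation -/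
structure Dat (d : ℕ) (ep : ℂ) (r : ℝ) (F : ℂ → ℂ) (a b : ℕ → ℂ) (C : ℝ) (A : ℕ) : Prop
    extends PB a b C A where
  hF : ∀ z : ℂ, 0 < z.im →
    HasSum (fun n : ℕ => (a n + z * b n) * cexp (2 * Real.pi * I * n * z)) (F z)
  hE : ∀ z : ℂ, 0 < z.im →
    F z + ep * (jk d z * F (-1 / z)) = ee r z + ep * (jk d z * ee r (-1 / z))

/-- a chain of functions on the line: `E i' = t E (i+1)`, rapidly decreasing, `E i 0 = 0` for
`i < J` -/
structure Chain (E : ℕ → ℝ → ℂ) (J : ℕ) : Prop where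
  der : ∀ i t, HasDerivAt (E i) (t * E (i + 1) t) t
  bd : ∀ i, ∃ C : ℝ, ∀ t, ‖E i t‖ ≤ C / (1 + t ^ 2) ^ 2
  zero : ∀ i, i < J → E i 0 = 0

/-- smoothing with a Gaussian -/
noncomputable def sm {d : ℕ} (δ : ℝ) (h : EuclideanSpace ℝ (Fin d) → ℂ)
    (ξ : EuclideanSpace ℝ (Fin d)) : ℂ :=
  ∫ v : EuclideanSpace ℝ (Fin d), cexp (-(Real.pi * (‖v‖ : ℂ) ^ 2)) * h (ξ - Real.sqrt δ • v)

end Pool.Agent.K2P
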