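import Pool.Agent.Lib_helper97.K2P.Pair

/-!
# K2P: the end (helper97)
-/

set_option autoImplicit false

open scoped FourierTransform SchwartzMap

namespace Pool.Agent.K2P

open Complex MeasureTheory

variable {d : ℕ} {ep : ℂ} {r : ℝ} {F : ℂ → ℂ} {a b : ℕ → ℂ} {C : ℝ} {A : ℕ}

/-- the pairing -/
theorem pairing (D : Dat d ep r F a b C A) (hr : 0 ≤ r) (f : 𝓢(EuclideanSpace ℝ (Fin d), ℂ))
    (hf : ∀ x y : EuclideanSpace ℝ (Fin d), ‖x‖ = ‖y‖ → f x = f y)
    (e : EuclideanSpace ℝ (Fin d)) (he : ‖e‖ = 1) :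
    LL a b r (fun t : ℝ => f (t • e)) (deriv fun t : ℝ => f (t • e)) +
      ep * LL a b r (fun t : ℝ => (𝓕 (f : EuclideanSpace ℝ (Fin d) → ℂ)) (t • e))
        (deriv fun t : ℝ => (𝓕 (f : EuclideanSpace ℝ (Fin d) → ℂ)) (t • e)) = 0 := by
  set h : 𝓢(EuclideanSpace ℝ (Fin d), ℂ) := 𝓕 f with hh
  have hcoe : (𝓕 (f : EuclideanSpace ℝ (Fin d) → ℂ)) = h := (SchwartzMap.fourier_coe f).symm
  rw [hcoe]
  obtain ⟨f', hf'1, _⟩ := P_sm_der f e
  obtain ⟨h', hh'1, hh'2⟩ := P_sm_der h e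
  have ef : (deriv fun t : ℝ => f (t • e)) = fun t => f' (t • e) := funext fun t => (hf'1 t).deriv
  have eh : (deriv fun t : ℝ => h (t • e)) = fun t => h' (t • e) := funext fun t => (hh'1 t).deriv
  rw [ef, eh]
  have hnm : ∀ t : ℝ, ‖t • e‖ = |t| := fun t => by rw [norm_smul, he, mul_one, Real.norm_eq_abs]
  -- the functions for δ
  set G : ℝ → ℝ → ℂ := fun δ t => f (t • e) * gs (δ * I) t with hG
  set G' : ℝ → ℝ → ℂ := fun δ t => f' (t • e) * gs (δ * I) t + f (t • e) * gs' (δ * I) t with hG'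
  have key : ∀ δ : ℝ, 0 < δ → LL a b r (G δ) (G' δ) +
      ep * LL a b r (fun t => sm δ h (t • e)) (fun t => sm δ h' (t • e)) = 0 := by
    intro δ hδ
    obtain ⟨g1, h1, dg, dh, hz⟩ := pair_delta D hr f hf e he hδ
    have e1 : (fun t : ℝ => 𝓕 (fun v : EuclideanSpace ℝ (Fin d) => f v * gs (δ * I) ‖v‖) (t • e)) =
        fun t => sm δ h (t • e) := by
      funext t
      rw [P_conv f hδ, hcoe]
    rw [e1] at dh hz
    have e2 : g1 = G' δ := funext fun t =>
      (dg t).unique ((hf'1 t).mul (gs_deriv (δ * I) t))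
    have e3 : h1 = fun t => sm δ h' (t • e) := funext fun t => (dh t).unique (hh'2 δ hδ t)
    rw [e2, e3] at hz
    exact hz
  -- bounds
  obtain ⟨C1, hC1, b1⟩ := P7b_decay f (2 * A + 5)
  obtain ⟨C2, hC2, b2⟩ := P7b_decay f' (2 * A + 4)
  obtain ⟨C3, hC3, b3⟩ := P_sm_bd h (2 * A + 4)
  obtain ⟨C4, hC4, b4⟩ := P_sm_bd h' (2 * A + 4)
  have hpos : ∀ t : ℝ, 0 ≤ t → ‖t • e‖ = t := fun t ht => by rw [hnm, abs_of_nonneg ht]
  have d1 : ∀ t : ℝ, 0 ≤ t → ‖f (t • e)‖ ≤ C1 / (1 + t) ^ (2 * A + 5) := by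
    intro t ht
    have := b1 (t • e)
    rw [hpos t ht] at this
    rw [le_div_iff₀ (by positivity)]
    linarith
  have d2 : ∀ t : ℝ, 0 ≤ t → ‖f' (t • e)‖ ≤ C2 / (1 + t) ^ (2 * A + 4) := by
    intro t ht
    have := b2 (t • e)
    rw [hpos t ht] at this
    rw [le_div_iff₀ (by positivity)]
    linarith
  have hg1 : ∀ δ : ℝ, 0 < δ → ∀ t : ℝ, ‖gs (δ * I) t‖ ≤ 1 := by
    intro δ hδ t
    exact P5b_gs_le (by simpa using hδ) t
  have hg2 : ∀ δ : ℝ, 0 < δ → δ ≤ 1 → ∀ t : ℝ, 0 ≤ t → ‖gs' (δ * I) t‖ ≤ 2 * Real.pi * (1 + t) := by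
    intro δ hδ hδ1 t ht
    rw [P5b_gs'_norm, norm_mul, Complex.norm_real, Complex.norm_I, mul_one, Real.norm_eq_abs,
      abs_of_pos hδ, abs_of_nonneg ht]
    have h1 := hg1 δ hδ t
    have h2 : δ * t ≤ 1 + t := by nlinarith
    calc 2 * Real.pi * δ * t * ‖gs (δ * I) t‖ = 2 * Real.pi * ((δ * t) * ‖gs (δ * I) t‖) := by ring
      _ ≤ 2 * Real.pi * ((1 + t) * 1) := by gcongr
      _ = _ := by ring
  have L1 := P_lim D.toPB r hr (G := G) (G' := G') (g := fun t => f (t • e))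
    (g' := fun t => f' (t • e)) (K := C1 + C2 + 2 * Real.pi * C1) ?_ ?_ ?_ ?_
  · have L2 := P_lim D.toPB r hr (G := fun δ t => sm δ h (t • e))
      (G' := fun δ t => sm δ h' (t • e)) (g := fun t => h (t • e))
      (g' := fun t => h' (t • e)) (K := C3 + C4) ?_ ?_ ?_ ?_
    · have L3 := L1.add (L2.const_mul ep)
      have L4 : Filter.Tendsto (fun δ : ℝ => LL a b r (G δ) (G' δ) +
          ep * LL a b r (fun t => sm δ h (t • e)) (fun t => sm δ h' (t • e)))
          (nhdsWithin 0 (Set.Ioi 0)) (nhds 0) := by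
        refine tendsto_const_nhds.congr' ?_
        filter_upwards [self_mem_nhdsWithin] with δ hδ
        exact (key δ hδ).symm
      exact tendsto_nhds_unique L3 L4
    · intro δ hδ hδ1 t ht
      refine (b3 δ hδ hδ1 (t • e)).trans ?_
      rw [hpos t ht]
      gcongr
      linarith
    · intro δ hδ hδ1 t ht
      refine (b4 δ hδ hδ1 (t • e)).trans ?_
      rw [hpos t ht]
      gcongr
      linarith
    · intro t _
      exact P_sm_lim h (t • e)
    · intro t _
      exact P_sm_lim h' (t • e)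
  · intro δ hδ hδ1 t ht
    rw [hG]
    simp only
    rw [norm_mul]
    calc ‖f (t • e)‖ * ‖gs (δ * I) t‖ ≤ C1 / (1 + t) ^ (2 * A + 5) * 1 := by
          gcongr
          · exact d1 t ht
          · exact hg1 δ hδ t
      _ ≤ (C1 + C2 + 2 * Real.pi * C1) / (1 + t) ^ (2 * A + 4) := by
          rw [mul_one]
          apply div_le_div₀ (by positivity) _ (by positivity)
          · exact pow_le_pow_right₀ (by linarith) (by omega)
          · have : 0 ≤ 2 * Real.pi * C1 := by positivity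
            linarith
  · intro δ hδ hδ1 t ht
    rw [hG']
    simp only
    refine (norm_add_le _ _).trans ?_
    rw [norm_mul, norm_mul]
    calc ‖f' (t • e)‖ * ‖gs (δ * I) t‖ + ‖f (t • e)‖ * ‖gs' (δ * I) t‖
        ≤ C2 / (1 + t) ^ (2 * A + 4) * 1 +
          C1 / (1 + t) ^ (2 * A + 5) * (2 * Real.pi * (1 + t)) := by
          gcongr
          · exact d2 t ht
          · exact hg1 δ hδ t
          · exact d1 t ht
          · exact hg2 δ hδ hδ1 t ht
      _ = (C2 + 2 * Real.pi * C1) / (1 + t) ^ (2 * A + 4) := by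
          have : (1 + t) ≠ 0 := by positivity
          field_simp
          ring
      _ ≤ (C1 + C2 + 2 * Real.pi * C1) / (1 + t) ^ (2 * A + 4) := by
          gcongr
          linarith
  · intro t _
    have hc : Continuous (fun δ : ℝ => G δ t) := by
      rw [hG]; unfold gs; fun_prop
    have := (hc.tendsto 0).mono_left (nhdsWithin_le_nhds (s := Set.Ioi (0 : ℝ)))
    simpa [hG, gs] using this
  · intro t _
    have hc : Continuous (fun δ : ℝ => G' δ t) := by
      rw [hG']; unfold gs' gs; fun_prop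
    have := (hc.tendsto 0).mono_left (nhdsWithin_le_nhds (s := Set.Ioi (0 : ℝ)))
    simpa [hG', gs, gs'] using this

theorem nd_zero : nd 0 = 0 := by simp [nd]

/-- **the end**: uniqueness from the data for both signs and every `r > 0` -/
theorem uniqueness {d : ℕ}
    (hD : ∀ ep : ℂ, (ep = 1 ∨ ep = -1) → ∀ r : ℝ, 0 < r →
      ∃ (F : ℂ → ℂ) (a b : ℕ → ℂ) (C : ℝ) (A : ℕ), Dat d ep r F a b C A)
    (f : 𝓢(EuclideanSpace ℝ (Fin d), ℂ))
    (hf : ∀ x y : EuclideanSpace ℝ (Fin d), ‖x‖ = ‖y‖ → f x = f y)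
    (e : EuclideanSpace ℝ (Fin d)) (he : ‖e‖ = 1)
    (h0 : ∀ n : ℕ, f (nd n • e) = 0)
    (h1 : ∀ n : ℕ, deriv (fun t : ℝ => f (t • e)) (nd n) = 0)
    (h2 : ∀ n : ℕ, (𝓕 (f : EuclideanSpace ℝ (Fin d) → ℂ)) (nd n • e) = 0)
    (h3 : ∀ n : ℕ, deriv (fun t : ℝ => (𝓕 (f : EuclideanSpace ℝ (Fin d) → ℂ)) (t • e)) (nd n) = 0) :
    f = 0 := by
  have hnm : ∀ t : ℝ, ‖t • e‖ = |t| := fun t => by rw [norm_smul, he, mul_one, Real.norm_eq_abs]
  -- the functional equation
  have step : ∀ r : ℝ, 0 < r → f (r • e) = f (Real.sqrt (r ^ 2 + 2) • e) := by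
    intro r hr
    have L : ∀ (a b : ℕ → ℂ) (g g' : ℝ → ℂ), (∀ n, g (nd n) = 0) → (∀ n, g' (nd n) = 0) →
        LL a b r g g' = - g r + g (Real.sqrt (r ^ 2 + 2)) := by
      intro a b g g' hg hg'
      unfold LL
      have : LT a b g g' = fun _ => 0 := by
        funext n
        unfold LT
        rw [hg, hg']; simp
      rw [this, tsum_zero]
      ring
    obtain ⟨F, a, b, C, A, D⟩ := hD 1 (Or.inl rfl) r hr
    obtain ⟨F2, a2, b2, C2, A2, D2⟩ := hD (-1) (Or.inr rfl) r hr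
    have e1 := pairing D hr.le f hf e he
    have e2 := pairing D2 hr.le f hf e he
    rw [L a b _ _ h0 h1, L a b _ _ h2 h3] at e1
    rw [L a2 b2 _ _ h0 h1, L a2 b2 _ _ h2 h3] at e2
    linear_combination (-1 / 2 : ℂ) * e1 + (-1 / 2 : ℂ) * e2
  have iter : ∀ r : ℝ, 0 < r → ∀ m : ℕ, f (r • e) = f (Real.sqrt (r ^ 2 + 2 * m) • e) := by
    intro r hr m
    induction m with
    | zero => simp [Real.sqrt_sq hr.le]
    | succ m ih =>
      have hp : 0 < Real.sqrt (r ^ 2 + 2 * m) := Real.sqrt_pos.2 (by positivity)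
      rw [ih, step _ hp, Real.sq_sqrt (by positivity)]
      push_cast
      ring_nf
  have hz : ∀ r : ℝ, 0 < r → f (r • e) = 0 := by
    intro r hr
    obtain ⟨K, hK, b⟩ := P7b_decay f 1
    have hlim : Filter.Tendsto (fun m : ℕ => K / Real.sqrt (r ^ 2 + 2 * m)) Filter.atTop
        (nhds 0) := by
      apply Filter.Tendsto.const_div_atTop
      apply Real.tendsto_sqrt_atTop.comp
      apply Filter.tendsto_atTop_add_const_left
      exact Filter.Tendsto.const_mul_atTop (by norm_num) tendsto_natCast_atTop_atTop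
    have hle : ∀ m : ℕ, ‖f (r • e)‖ ≤ K / Real.sqrt (r ^ 2 + 2 * m) := by
      intro m
      have hp : 0 < Real.sqrt (r ^ 2 + 2 * m) := Real.sqrt_pos.2 (by positivity)
      rw [iter r hr m, le_div_iff₀ hp]
      have := b (Real.sqrt (r ^ 2 + 2 * m) • e)
      rw [hnm, abs_of_pos hp, pow_one] at this
      nlinarith [norm_nonneg (f (Real.sqrt (r ^ 2 + 2 * m) • e))]
    have := ge_of_tendsto' hlim hle
    exact norm_le_zero_iff.1 this
  ext v
  rcases eq_or_ne v 0 with rfl | hv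
  · have := h0 0
    rw [nd_zero, zero_smul] at this
    simpa using this
  · have h4 : f v = f (‖v‖ • e) := by
      apply hf
      rw [hnm, abs_of_nonneg (norm_nonneg v)]
    rw [h4, hz _ (norm_pos_iff.2 hv)]
    rfl

end Pool.Agent.K2P
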