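import Pool.Agent.Lib_helper97.K2P.F.P4
import Pool.Agent.Lib_helper97.K2P.F.P5b
import Pool.Agent.Lib_helper97.K2P.F.P7a
import Pool.Agent.Lib_helper97.K2P.F.P7b
import Pool.Agent.Lib_helper97.K2P.F.P8
import Pool.Agent.Lib_helper97.K2P.F.P2
import Pool.Agent.Lib_helper68.KTwoE
import Pool.Agent.Lib_helper97.K2P.F.P3

/-!
# K2P: the pairing (helper97)
-/

set_option autoImplicit false

open scoped FourierTransform SchwartzMap

namespace Pool.Agent.K2P

open Complex MeasureTheory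

section lin

variable {a b : ℕ → ℂ} {r : ℝ}

theorem LT_add (G G' H H' : ℝ → ℂ) (n : ℕ) :
    LT a b (fun t => G t + H t) (fun t => G' t + H' t) n = LT a b G G' n + LT a b H H' n := by
  unfold LT; ring

theorem LT_mul (c : ℂ) (G G' : ℝ → ℂ) (n : ℕ) :
    LT a b (fun t => c * G t) (fun t => c * G' t) n = c * LT a b G G' n := by
  unfold LT; ring

theorem LL_add {G G' H H' : ℝ → ℂ} (h1 : Summable (LT a b G G')) (h2 : Summable (LT a b H H')) :
    Summable (LT a b (fun t => G t + H t) (fun t => G' t + H' t)) ∧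
    LL a b r (fun t => G t + H t) (fun t => G' t + H' t) = LL a b r G G' + LL a b r H H' := by
  have e : LT a b (fun t => G t + H t) (fun t => G' t + H' t) =
      fun n => LT a b G G' n + LT a b H H' n := funext fun n => LT_add G G' H H' n
  refine ⟨by rw [e]; exact h1.add h2, ?_⟩
  unfold LL
  rw [e, h1.tsum_add h2]
  ring

theorem LL_mul (c : ℂ) {G G' : ℝ → ℂ} (h1 : Summable (LT a b G G')) :
    Summable (LT a b (fun t => c * G t) (fun t => c * G' t)) ∧
    LL a b r (fun t => c * G t) (fun t => c * G' t) = c * LL a b r G G' := by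
  have e : LT a b (fun t => c * G t) (fun t => c * G' t) = fun n => c * LT a b G G' n :=
    funext fun n => LT_mul c G G' n
  refine ⟨by rw [e]; exact h1.mul_left c, ?_⟩
  unfold LL
  rw [e, tsum_mul_left]
  ring

theorem LL_sum {ι : Type*} (s : Finset ι) {G G' : ι → ℝ → ℂ}
    (h1 : ∀ j ∈ s, Summable (LT a b (G j) (G' j))) :
    Summable (LT a b (fun t => ∑ j ∈ s, G j t) (fun t => ∑ j ∈ s, G' j t)) ∧
    LL a b r (fun t => ∑ j ∈ s, G j t) (fun t => ∑ j ∈ s, G' j t) =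
      ∑ j ∈ s, LL a b r (G j) (G' j) := by
  classical
  induction s using Finset.induction_on with
  | empty =>
    have e : LT a b (fun _ => (0 : ℂ)) (fun _ => (0 : ℂ)) = fun _ => (0 : ℂ) := by
      funext n; unfold LT; simp
    simp only [Finset.sum_empty]
    refine ⟨by rw [e]; exact summable_zero, ?_⟩
    unfold LL
    rw [e]; simp
  | insert i s hi ih =>
    obtain ⟨h2, h3⟩ := ih fun j hj => h1 j (Finset.mem_insert_of_mem hj)
    obtain ⟨h4, h5⟩ := LL_add (r := r) (h1 i (Finset.mem_insert_self i s)) h2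
    simp only [Finset.sum_insert hi]
    exact ⟨h4, by rw [h5, h3]⟩

/-- `LL` only depends on the values for `t ≥ 0` -/
theorem LL_congr (hr : 0 ≤ r) {G G' H H' : ℝ → ℂ} (h : ∀ t, 0 ≤ t → G t = H t)
    (h' : ∀ t, 0 ≤ t → G' t = H' t) : LL a b r G G' = LL a b r H H' := by
  unfold LL
  rw [h r hr, h _ (Real.sqrt_nonneg _)]
  have : LT a b G G' = LT a b H H' := by
    funext n
    unfold LT
    have h0 : 0 ≤ nd n := Real.sqrt_nonneg _
    rw [h _ h0, h' _ h0]
  rw [this]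

end lin

theorem im_inv {w : ℂ} (hw : 0 < w.im) : 0 < (-1 / w).im := by
  have h : w ≠ 0 := by rintro rfl; simp at hw
  have h2 : 0 < Complex.normSq w := Complex.normSq_pos.2 h
  rw [Complex.div_im]
  simp only [Complex.neg_im, Complex.one_im, Complex.neg_re, Complex.one_re]
  have : -1 * w.im / Complex.normSq w < 0 := by
    apply div_neg_of_neg_of_pos (by linarith) h2
  simp only [neg_zero, zero_mul, zero_div, zero_sub]
  linarith

/-- the two parts for one Gaussian cancel -/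
theorem gauss_zero {d : ℕ} {ep : ℂ} {r : ℝ} {F : ℂ → ℂ} {a b : ℕ → ℂ} {C : ℝ} {A : ℕ}
    (D : Dat d ep r F a b C A) {w : ℂ} (hw : 0 < w.im) :
    LL a b r (gs w) (gs' w) + ep * (jk d w * LL a b r (gs (-1 / w)) (gs' (-1 / w))) = 0 := by
  have h1 := (P_one D.toPB r hw (D.hF w hw)).2
  have h2 := (P_one D.toPB r (im_inv hw) (D.hF _ (im_inv hw))).2
  have h3 := D.hE w hw
  rw [h1, h2]
  linear_combination h3

theorem gs_abs (w : ℂ) (t : ℝ) : gs w |t| = gs w t := by
  unfold gs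
  congr 2
  rw [← Complex.ofReal_pow, ← Complex.ofReal_pow, sq_abs]

theorem gs_cont (w : ℂ) : Continuous (gs w) := by
  unfold gs; fun_prop


section main

variable {d : ℕ} {ep : ℂ} {r : ℝ} {F : ℂ → ℂ} {a b : ℕ → ℂ} {C : ℝ} {A : ℕ}

/-- the superposition part -/
theorem sup_zero (D : Dat d ep r F a b C A) {ψ : ℝ → ℂ} (hc : Continuous ψ) {K : ℝ}
    (hψ : ∀ x, ‖ψ x‖ ≤ K / (1 + |x|) ^ (2 * A + 4)) {δ : ℝ} (hδ : 0 < δ) :
    ∃ G H G' H' : ℝ → ℂ, (∀ t, G t = ∫ x : ℝ, ψ x * gs (x + δ * I) t) ∧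
      (∀ t, H t = ∫ x : ℝ, (ψ x * jk d (x + δ * I)) * gs (-1 / (x + δ * I)) t) ∧
      (∀ t, HasDerivAt G (G' t) t) ∧ (∀ t, HasDerivAt H (H' t) t) ∧
      Summable (LT a b G G') ∧ Summable (LT a b H H') ∧
      LL a b r G G' + ep * LL a b r H H' = 0 := by
  have hK : 0 ≤ K := by
    have := (norm_nonneg _).trans (hψ 0)
    simpa using this
  have him : ∀ x : ℝ, ((x : ℂ) + δ * I).im = δ := fun x => by simp
  have hw0 : ∀ x : ℝ, 0 < ((x : ℂ) + δ * I).im := fun x => by rw [him]; exact hδ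
  have hne : ∀ x : ℝ, (x : ℂ) + δ * I ≠ 0 := fun x h => by
    have := hw0 x
    rw [h] at this; simp at this
  have hwc : Continuous (fun x : ℝ => (x : ℂ) + δ * I) := by fun_prop
  have hnw : ∀ x : ℝ, ‖(x : ℂ) + δ * I‖ ≤ (1 + δ) * (1 + |x|) := by
    intro x
    refine (norm_add_le _ _).trans ?_
    rw [Complex.norm_real, norm_mul, Complex.norm_real, Complex.norm_I, mul_one,
      Real.norm_eq_abs, Real.norm_eq_abs, abs_of_pos hδ]
    nlinarith [abs_nonneg x]
  have hnd : ∀ x : ℝ, δ ≤ ‖(x : ℂ) + δ * I‖ := by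
    intro x
    have := Complex.abs_im_le_norm ((x : ℂ) + δ * I)
    rw [him, abs_of_pos hδ] at this
    exact this
  have hx1 : ∀ x : ℝ, 1 ≤ 1 + |x| := fun x => by linarith [abs_nonneg x]
  have hx2 : ∀ x : ℝ, 1 + x ^ 2 ≤ (1 + |x|) ^ 2 := fun x => by
    nlinarith [abs_nonneg x, sq_abs x]
  -- the direct part
  have b1 : ∀ x : ℝ, ‖ψ x‖ * (1 + ‖(x : ℂ) + δ * I‖) * (1 + 1 / ((x : ℂ) + δ * I).im) ^ (A + 1) ≤
      (K * (2 + δ) * (1 + 1 / δ) ^ (A + 1)) / (1 + x ^ 2) := by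
    intro x
    rw [him]
    have e1 : 1 + ‖(x : ℂ) + δ * I‖ ≤ (2 + δ) * (1 + |x|) := by
      have := hnw x; have := hx1 x; nlinarith
    have e2 : ‖ψ x‖ * (1 + ‖(x : ℂ) + δ * I‖) ≤ K * (2 + δ) / (1 + x ^ 2) := by
      rw [le_div_iff₀ (by positivity)]
      have e3 : ‖ψ x‖ * (1 + |x|) ^ (2 * A + 4) ≤ K := by
        have := hψ x
        rwa [le_div_iff₀ (by positivity)] at this
      have e4 : (1 + |x|) ^ 3 ≤ (1 + |x|) ^ (2 * A + 4) :=
        pow_le_pow_right₀ (hx1 x) (by omega)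
      calc ‖ψ x‖ * (1 + ‖(x : ℂ) + δ * I‖) * (1 + x ^ 2)
          ≤ ‖ψ x‖ * ((2 + δ) * (1 + |x|)) * (1 + |x|) ^ 2 := by
            gcongr
            exact hx2 x
        _ = (2 + δ) * (‖ψ x‖ * (1 + |x|) ^ 3) := by ring
        _ ≤ (2 + δ) * (‖ψ x‖ * (1 + |x|) ^ (2 * A + 4)) := by gcongr
        _ ≤ (2 + δ) * K := by gcongr
        _ = K * (2 + δ) := by ring
    calc _ ≤ K * (2 + δ) / (1 + x ^ 2) * (1 + 1 / δ) ^ (A + 1) := by gcongr
      _ = _ := by ring
  -- the transform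
  have hsl : ∀ x : ℝ, I / ((x : ℂ) + δ * I) ∈ Complex.slitPlane := by
    intro x
    left
    rw [Complex.div_re]
    simp only [Complex.I_re, zero_mul, zero_div, Complex.I_im, one_mul, zero_add]
    rw [him]
    exact div_pos hδ (Complex.normSq_pos.2 (hne x))
  have hjc : Continuous (fun x : ℝ => jk d ((x : ℂ) + δ * I)) := by
    unfold jk
    refine Continuous.cpow ?_ continuous_const hsl
    exact continuous_const.div hwc hne
  have hjn : ∀ x : ℝ, ‖jk d ((x : ℂ) + δ * I)‖ ≤ (1 / δ) ^ ((d : ℝ) / 2) := by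
    intro x
    unfold jk
    have : ((d : ℂ) / 2) = (((d : ℝ) / 2 : ℝ) : ℂ) := by push_cast; ring
    rw [this, Complex.norm_cpow_real, norm_div, Complex.norm_I]
    apply Real.rpow_le_rpow (by positivity) _ (by positivity)
    exact one_div_le_one_div_of_le hδ (hnd x)
  have him2 : ∀ x : ℝ, (-1 / ((x : ℂ) + δ * I)).im = δ / ‖(x : ℂ) + δ * I‖ ^ 2 := by
    intro x
    rw [Complex.div_im, him, ← Complex.normSq_eq_norm_sq]
    simp
    ring
  have b2 : ∀ x : ℝ, ‖ψ x * jk d (x + δ * I)‖ * (1 + ‖-1 / ((x : ℂ) + δ * I)‖) *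
      (1 + 1 / (-1 / ((x : ℂ) + δ * I)).im) ^ (A + 1) ≤
      (K * (1 / δ) ^ ((d : ℝ) / 2) * (1 + 1 / δ) * (1 + (1 + δ) ^ 2 / δ) ^ (A + 1)) / (1 + x ^ 2) := by
    intro x
    have e1 : 1 + ‖-1 / ((x : ℂ) + δ * I)‖ ≤ 1 + 1 / δ := by
      rw [norm_div, norm_neg, norm_one]
      have := one_div_le_one_div_of_le hδ (hnd x)
      linarith
    have e2 : 1 + 1 / (-1 / ((x : ℂ) + δ * I)).im ≤ (1 + (1 + δ) ^ 2 / δ) * (1 + |x|) ^ 2 := by
      rw [him2, one_div_div]
      have e3 : ‖(x : ℂ) + δ * I‖ ^ 2 ≤ ((1 + δ) * (1 + |x|)) ^ 2 :=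
        pow_le_pow_left₀ (norm_nonneg _) (hnw x) 2
      have e4 : ‖(x : ℂ) + δ * I‖ ^ 2 / δ ≤ (1 + δ) ^ 2 / δ * (1 + |x|) ^ 2 := by
        rw [div_mul_eq_mul_div]
        apply div_le_div_of_nonneg_right _ hδ.le
        rw [← mul_pow]; exact e3
      have e5 : (1 : ℝ) ≤ (1 + |x|) ^ 2 := one_le_pow₀ (hx1 x)
      linarith
    have e6 : 0 < (-1 / ((x : ℂ) + δ * I)).im := im_inv (hw0 x)
    rw [norm_mul, le_div_iff₀ (by positivity)]
    have e3 : ‖ψ x‖ * (1 + |x|) ^ (2 * A + 4) ≤ K := by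
      have := hψ x
      rwa [le_div_iff₀ (by positivity)] at this
    calc ‖ψ x‖ * ‖jk d (x + δ * I)‖ * (1 + ‖-1 / ((x : ℂ) + δ * I)‖) *
          (1 + 1 / (-1 / ((x : ℂ) + δ * I)).im) ^ (A + 1) * (1 + x ^ 2)
        ≤ ‖ψ x‖ * (1 / δ) ^ ((d : ℝ) / 2) * (1 + 1 / δ) *
          ((1 + (1 + δ) ^ 2 / δ) * (1 + |x|) ^ 2) ^ (A + 1) * (1 + |x|) ^ 2 := by
          gcongr
          · exact hjn x
          · exact hx2 x
      _ = (‖ψ x‖ * (1 + |x|) ^ (2 * A + 4)) * ((1 / δ) ^ ((d : ℝ) / 2) * (1 + 1 / δ) *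
          (1 + (1 + δ) ^ 2 / δ) ^ (A + 1)) := by
          rw [mul_pow, ← pow_mul]
          ring
      _ ≤ K * ((1 / δ) ^ ((d : ℝ) / 2) * (1 + 1 / δ) *
          (1 + (1 + δ) ^ 2 / δ) ^ (A + 1)) := by gcongr
      _ = _ := by ring
  obtain ⟨g1, g2, g3, g4⟩ := P_swap D.toPB r D.hF hc hwc hw0 b1
  have hw2c : Continuous (fun x : ℝ => -1 / ((x : ℂ) + δ * I)) :=
    continuous_const.div hwc hne
  obtain ⟨h1, h2, h3, h4⟩ := P_swap D.toPB r D.hF (χ := fun x : ℝ => ψ x * jk d (x + δ * I))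
    (hc.mul hjc) hw2c (fun x => im_inv (hw0 x)) b2
  refine ⟨_, _, _, _, fun t => rfl, fun t => rfl, g1, h1, g2, h2, ?_⟩
  rw [g4, h4, ← integral_const_mul, ← integral_add g3 (h3.const_mul ep)]
  have : ∀ x : ℝ, ψ x * (F ((x : ℂ) + δ * I) - ee r ((x : ℂ) + δ * I)) +
      ep * (ψ x * jk d (x + δ * I) * (F (-1 / ((x : ℂ) + δ * I)) -
        ee r (-1 / ((x : ℂ) + δ * I)))) = 0 := by
    intro x
    linear_combination (ψ x) * D.hE _ (hw0 x)
  rw [integral_congr_ae (Filter.Eventually.of_forall this)]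
  simp

theorem gs_deriv (w : ℂ) (t : ℝ) : HasDerivAt (gs w) (gs' w t) t := P5b_gs_hasDerivAt w t

theorem gs_int {w : ℂ} (hw : 0 < w.im) :
    Integrable (fun v : EuclideanSpace ℝ (Fin d) => gs w ‖v‖) := by
  have h := P7b_int (d := d) (b := Real.pi * w.im) (by positivity)
  refine h.mono' ((gs_cont w).comp continuous_norm).aestronglyMeasurable
    (Filter.Eventually.of_forall fun v => ?_)
  rw [P4_gs_norm]

theorem four_add {g h : EuclideanSpace ℝ (Fin d) → ℂ} (hg : Integrable g) (hh : Integrable h)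
    (ξ : EuclideanSpace ℝ (Fin d)) : 𝓕 (fun v => g v + h v) ξ = 𝓕 g ξ + 𝓕 h ξ := by
  rw [Real.fourier_eq, Real.fourier_eq, Real.fourier_eq,
    ← integral_add ((Real.fourierIntegral_convergent_iff ξ).2 hg)
      ((Real.fourierIntegral_convergent_iff ξ).2 hh)]
  congr 1
  funext v
  rw [smul_add]

theorem four_smul (c : ℂ) (g : EuclideanSpace ℝ (Fin d) → ℂ) (ξ : EuclideanSpace ℝ (Fin d)) :
    𝓕 (fun v => c * g v) ξ = c * 𝓕 g ξ := by
  rw [Real.fourier_eq, Real.fourier_eq, ← integral_const_mul]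
  congr 1
  funext v
  rw [Circle.smul_def, Circle.smul_def, smul_eq_mul, smul_eq_mul]
  ring

theorem four_sum {ι : Type*} (s : Finset ι) {g : ι → EuclideanSpace ℝ (Fin d) → ℂ}
    (hg : ∀ j ∈ s, Integrable (g j)) (ξ : EuclideanSpace ℝ (Fin d)) :
    𝓕 (fun v => ∑ j ∈ s, g j v) ξ = ∑ j ∈ s, 𝓕 (g j) ξ := by
  classical
  induction s using Finset.induction_on with
  | empty =>
    simp only [Finset.sum_empty]
    rw [Real.fourier_eq]
    simp
  | insert i s hi ih =>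
    simp only [Finset.sum_insert hi]
    rw [four_add (hg i (Finset.mem_insert_self i s))
      (integrable_finsetSum s fun j hj => hg j (Finset.mem_insert_of_mem hj)),
      ih fun j hj => hg j (Finset.mem_insert_of_mem hj)]

/-- the pairing for `f exp(-πδ|v|²)` -/
theorem pair_delta (D : Dat d ep r F a b C A) (hr : 0 ≤ r) (f : 𝓢(EuclideanSpace ℝ (Fin d), ℂ))
    (hf : ∀ x y : EuclideanSpace ℝ (Fin d), ‖x‖ = ‖y‖ → f x = f y)
    (e : EuclideanSpace ℝ (Fin d)) (he : ‖e‖ = 1) {δ : ℝ} (hδ : 0 < δ) :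
    ∃ G' H' : ℝ → ℂ, (∀ t : ℝ, HasDerivAt (fun t : ℝ => f (t • e) * gs (δ * I) t) (G' t) t) ∧
      (∀ t : ℝ, HasDerivAt (fun t : ℝ => 𝓕 (fun v : EuclideanSpace ℝ (Fin d) =>
        f v * gs (δ * I) ‖v‖) (t • e)) (H' t) t) ∧
      LL a b r (fun t : ℝ => f (t • e) * gs (δ * I) t) G' +
        ep * LL a b r (fun t : ℝ => 𝓕 (fun v : EuclideanSpace ℝ (Fin d) =>
          f v * gs (δ * I) ‖v‖) (t • e)) H' = 0 := by
  obtain ⟨F0, hF0⟩ := Pool.Agent.H68.exists_profile f e he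
  have hev : ∀ t, F0 (-t) = F0 t := by
    intro t
    rw [hF0, hF0]
    apply hf
    rw [norm_smul, norm_smul, norm_neg]
  obtain ⟨c, E, hE, hE0⟩ := P_flat F0 hev (2 * A + 5)
  obtain ⟨ψ, hc, ⟨K, hK⟩, hψ⟩ := P_psi (by omega) hE
  have hK' : ∀ x, ‖ψ x‖ ≤ K / (1 + |x|) ^ (2 * A + 4) := hK
  have hK0 : 0 ≤ K := by
    have := (norm_nonneg _).trans (hK' 0)
    simpa using this
  have hi : Integrable ψ := by
    have h1 : Integrable (fun x : ℝ => K * (1 + x ^ 2)⁻¹) := integrable_inv_one_add_sq.const_mul K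
    refine h1.mono' hc.aestronglyMeasurable (Filter.Eventually.of_forall fun x => ?_)
    refine (hK' x).trans ?_
    rw [div_eq_mul_inv]
    apply mul_le_mul_of_nonneg_left _ hK0
    apply inv_anti₀ (by positivity)
    have h2 : (1 : ℝ) ≤ 1 + |x| := by linarith [abs_nonneg x]
    calc 1 + x ^ 2 ≤ (1 + |x|) ^ 2 := by nlinarith [abs_nonneg x, sq_abs x]
      _ ≤ (1 + |x|) ^ (2 * A + 4) := pow_le_pow_right₀ h2 (by omega)
  obtain ⟨G, H, G', H', hG, hH, dG, dH, sG, sH, hLL⟩ := sup_zero D hc hK' hδ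
  have hnm : ∀ t : ℝ, ‖t • e‖ = |t| := fun t => by rw [norm_smul, he, mul_one, Real.norm_eq_abs]
  have hfv : ∀ v, f v = F0 ‖v‖ := by
    intro v
    rw [hF0]
    apply hf
    rw [hnm, abs_of_nonneg (norm_nonneg v)]
  set w : Fin (2 * A + 5) → ℂ := fun j => (((j : ℕ) : ℂ) + 1) * I + δ * I with hw
  have hwim : ∀ j, 0 < (w j).im := by
    intro j
    have : (w j).im = ((j : ℕ) : ℝ) + 1 + δ := by
      rw [hw]; simp
    rw [this]; positivity
  have hE0' : ∀ t, F0 t = E 0 |t| + ∑ j, c j * gs ((((j : ℕ) : ℂ) + 1) * I) t := by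
    intro t
    have h1 : F0 t = F0 |t| := by
      rcases abs_choice t with h | h <;> rw [h]
      exact (hev t).symm
    rw [h1, hE0]
    simp only [gs_abs]
    ring
  have hGt : ∀ t, G t = E 0 |t| * gs (δ * I) t := by
    intro t
    rw [hG, hψ _ (abs_nonneg t), ← integral_mul_const]
    congr 1
    funext x
    rw [mul_assoc, gs_abs, P4_gs_add]
  have p1 : (fun t : ℝ => f (t • e) * gs (δ * I) t) = fun t => G t + ∑ j, c j * gs (w j) t := by
    funext t
    rw [← hF0, hE0' t, hGt, add_mul, Finset.sum_mul]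
    congr 1
    apply Finset.sum_congr rfl
    intro j _
    rw [mul_assoc, P4_gs_add]
  have hEc : Continuous (E 0) :=
    continuous_iff_continuousAt.2 fun t => (hE.der 0 t).continuousAt
  obtain ⟨CE, hCE⟩ := hE.bd 0
  have hCE0 : 0 ≤ CE := by
    have := (norm_nonneg _).trans (hCE 0)
    simpa using this
  have hint1 : Integrable (fun v : EuclideanSpace ℝ (Fin d) => E 0 ‖v‖ * gs (δ * I) ‖v‖) := by
    have hδi : 0 < ((δ : ℂ) * I).im := by simpa using hδ
    have h1 := ((gs_int (d := d) hδi).norm).const_mul CE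
    refine h1.mono' (((hEc.comp continuous_norm).mul
      ((gs_cont _).comp continuous_norm)).aestronglyMeasurable)
      (Filter.Eventually.of_forall fun v => ?_)
    rw [norm_mul]
    apply mul_le_mul_of_nonneg_right _ (norm_nonneg _)
    refine (hCE _).trans ?_
    apply div_le_self hCE0
    apply one_le_pow₀
    nlinarith [sq_nonneg ‖v‖]
  have p2 : (fun t : ℝ => 𝓕 (fun v : EuclideanSpace ℝ (Fin d) => f v * gs (δ * I) ‖v‖) (t • e)) =
      fun t => H t + ∑ j, c j * (jk d (w j) * gs (-1 / w j) t) := by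
    funext t
    have e1 : (fun v : EuclideanSpace ℝ (Fin d) => f v * gs (δ * I) ‖v‖) =
        fun v => (E 0 ‖v‖ * gs (δ * I) ‖v‖) + ∑ j, c j * gs (w j) ‖v‖ := by
      funext v
      rw [hfv, hE0', abs_of_nonneg (norm_nonneg v), add_mul, Finset.sum_mul]
      congr 1
      apply Finset.sum_congr rfl
      intro j _
      rw [mul_assoc, P4_gs_add]
    rw [e1, four_add hint1 (integrable_finsetSum _ fun j _ => (gs_int (hwim j)).const_mul (c j)),
      four_sum _ fun j _ => (gs_int (hwim j)).const_mul (c j),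
      P_rep hc hi hδ (fun v => E 0 ‖v‖) (fun v => hψ _ (norm_nonneg v)) (t • e), hH]
    congr 1
    · congr 1
      funext x
      rw [hnm, gs_abs]
    · apply Finset.sum_congr rfl
      intro j _
      rw [four_smul, P_gauss (hwim j), hnm, gs_abs]
  have hwim' : ∀ j, 0 < (-1 / w j).im := fun j => im_inv (hwim j)
  have o1 : ∀ j, Summable (LT a b (gs (w j)) (gs' (w j))) := fun j =>
    (P_one D.toPB r (hwim j) (D.hF _ (hwim j))).1.summable
  have o2 : ∀ j, Summable (LT a b (gs (-1 / w j)) (gs' (-1 / w j))) := fun j =>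
    (P_one D.toPB r (hwim' j) (D.hF _ (hwim' j))).1.summable
  have o3 : ∀ j, Summable (LT a b (fun t => c j * gs (w j) t) (fun t => c j * gs' (w j) t)) :=
    fun j => (LL_mul (r := r) (c j) (o1 j)).1
  have o4 : ∀ j, Summable (LT a b (fun t => jk d (w j) * gs (-1 / w j) t)
      (fun t => jk d (w j) * gs' (-1 / w j) t)) :=
    fun j => (LL_mul (r := r) (jk d (w j)) (o2 j)).1
  have o5 : ∀ j, Summable (LT a b (fun t => c j * (jk d (w j) * gs (-1 / w j) t))
      (fun t => c j * (jk d (w j) * gs' (-1 / w j) t))) :=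
    fun j => (LL_mul (r := r) (c j) (o4 j)).1
  obtain ⟨q1, q2⟩ := LL_sum (r := r) Finset.univ fun j _ => o3 j
  obtain ⟨q3, q4⟩ := LL_sum (r := r) Finset.univ fun j _ => o5 j
  refine ⟨fun t => G' t + ∑ j, c j * gs' (w j) t,
    fun t => H' t + ∑ j, c j * (jk d (w j) * gs' (-1 / w j) t), ?_, ?_, ?_⟩
  · intro t
    rw [p1]
    exact (dG t).add (HasDerivAt.fun_sum fun j _ => (gs_deriv (w j) t).const_mul (c j))
  · intro t
    rw [p2]
    exact (dH t).add (HasDerivAt.fun_sum fun j _ =>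
      ((gs_deriv (-1 / w j) t).const_mul (jk d (w j))).const_mul (c j))
  · rw [p1, p2, (LL_add (r := r) sG q1).2, (LL_add (r := r) sH q3).2, q2, q4]
    have e1 : ∀ j, LL a b r (fun t => c j * gs (w j) t) (fun t => c j * gs' (w j) t) +
        ep * LL a b r (fun t => c j * (jk d (w j) * gs (-1 / w j) t))
          (fun t => c j * (jk d (w j) * gs' (-1 / w j) t)) = 0 := by
      intro j
      rw [(LL_mul (r := r) (c j) (o1 j)).2, (LL_mul (r := r) (c j) (o4 j)).2,
        (LL_mul (r := r) (jk d (w j)) (o2 j)).2]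
      linear_combination (c j) * gauss_zero D (hwim j)
    have e2 : ∑ j, (LL a b r (fun t => c j * gs (w j) t) (fun t => c j * gs' (w j) t) +
        ep * LL a b r (fun t => c j * (jk d (w j) * gs (-1 / w j) t))
          (fun t => c j * (jk d (w j) * gs' (-1 / w j) t))) = 0 :=
      Finset.sum_eq_zero fun j _ => e1 j
    rw [Finset.sum_add_distrib, ← Finset.mul_sum] at e2
    linear_combination hLL + e2

end main

end Pool.Agent.K2P
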