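import Pool.Agent.Lib_helper97.K2P.Fin
import Pool.Agent.Lib_helper98.K2.W.EXF
import Pool.Agent.Lib_helper98.K2.W.JINV

/-!
# K2P: the uniqueness theorem for `k = 2`, all dimensions (helper97)
-/

set_option autoImplicit false

open scoped FourierTransform SchwartzMap

namespace Pool.Agent.K2P

open Complex MeasureTheory

theorem data_all {d : ℕ} (hd : 1 ≤ d) : ∀ ep : ℂ, (ep = 1 ∨ ep = -1) → ∀ r : ℝ, 0 < r →
    ∃ (F : ℂ → ℂ) (a b : ℕ → ℂ) (C : ℝ) (A : ℕ), Dat d ep r F a b C A := by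
  intro ep hep r hr
  obtain ⟨e, he, rfl⟩ : ∃ e : ℤ, (e = 1 ∨ e = -1) ∧ ep = e := by
    rcases hep with rfl | rfl
    · exact ⟨1, Or.inl rfl, by simp⟩
    · exact ⟨-1, Or.inr rfl, by simp⟩
  obtain ⟨F, a, b, C, A, _, _, h1, h2, h3, h4⟩ := Pool.Agent.K2.EXF_blk d hd e he r
  refine ⟨F, a, b, C, A, ⟨h2, fun n => (h3 n).1, fun n => (h3 n).2⟩, fun z hz => h1 z hz, ?_⟩
  intro z hz
  have h5 := h4 z hz
  have h6 := Pool.Agent.K2.Jd_inv_cpow d (z := z) hz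
  unfold Pool.Agent.K2.DD at h5
  rw [h6] at h5
  unfold jk
  exact h5

theorem unique_two {d : ℕ} (hd : 1 ≤ d) (f : 𝓢(EuclideanSpace ℝ (Fin d), ℂ))
    (hf : ∀ x y : EuclideanSpace ℝ (Fin d), ‖x‖ = ‖y‖ → f x = f y)
    (e : EuclideanSpace ℝ (Fin d)) (he : ‖e‖ = 1)
    (h : ∀ n : ℕ, ∀ j : ℕ, j < 2 →
      iteratedDeriv j (fun t : ℝ => f (t • e)) (Real.sqrt ((2 : ℝ) * (n : ℝ))) = 0 ∧
      iteratedDeriv j (fun t : ℝ => (𝓕 (f : EuclideanSpace ℝ (Fin d) → ℂ)) (t • e))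
        (Real.sqrt ((2 : ℝ) * (n : ℝ))) = 0) : f = 0 := by
  refine uniqueness (data_all hd) f hf e he ?_ ?_ ?_ ?_
  · intro n
    simpa [nd] using (h n 0 (by norm_num)).1
  · intro n
    simpa [nd, iteratedDeriv_one] using (h n 1 (by norm_num)).1
  · intro n
    simpa [nd] using (h n 0 (by norm_num)).2
  · intro n
    simpa [nd, iteratedDeriv_one] using (h n 1 (by norm_num)).2

end Pool.Agent.K2P
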